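import Pool.Agent.Helper19K9.Carleman

/-!
The kernel of a normal Carleman operator on `L²(a, b)` is square integrable in both variables, and the
two norms agree.
-/

set_option autoImplicit false

open MeasureTheory
open scoped ENNReal ComplexConjugate

namespace Pool.Agent.Results.MP_0ee9ff_an.NormalCarlemanKernels

/-- Lebesgue measure on the interval `(a, b)`, where `a` and `b` may be infinite. -/
noncomputable def leb (a b : EReal) : Measure ℝ :=
  volume.restrict {x : ℝ | a < (x : EReal) ∧ (x : EReal) < b}

/-- The complex Hilbert space `L²(a, b)`. -/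
abbrev L2 (a b : EReal) : Type := Lp ℂ 2 (leb a b)

/-- The bounded linear operators on `L²(a, b)`. -/
abbrev Op (a b : EReal) : Type := L2 a b →L[ℂ] L2 a b

/-- The values of the function `N f` (defined almost everywhere). -/
noncomputable def values {a b : EReal} (N : Op a b) (f : L2 a b) : ℝ → ℂ := N f

/-- `N'` is the adjoint of `N`: the inner products `⟨N f, g⟩` and `⟨f, N' g⟩`, which are the integrals
of `conj (N f) g` and of `conj f (N' g)`, are equal for all `f` and `g` in `L²(a, b)`. -/
def IsAdjoint {a b : EReal} (N N' : Op a b) : Prop :=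
  ∀ f g : L2 a b, ∫ x, conj (values N f x) * g x ∂(leb a b) = ∫ x, conj (f x) * values N' g x ∂(leb a b)

/-- The operators `N` and `N'` commute. -/
def Commuting {a b : EReal} (N N' : Op a b) : Prop := ∀ f : L2 a b, N (N' f) = N' (N f)

/-- The integral of `|g| ^ 2` over `(a, b)`. -/
noncomputable def intSq (a b : EReal) (g : ℝ → ℂ) : ℝ≥0∞ := ∫⁻ x, ‖g x‖ₑ ^ 2 ∂(leb a b)

/-- The bounded operator `N` on the complex Hilbert space `L²(a, b)` is a Carleman operator with
kernel `ν`: `ν` is (Lebesgue) measurable on `(a, b) × (a, b)`, for almost every `x` the integral of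
`|ν(x, y)| ^ 2` over `y` is finite, and for every `f` in `L²(a, b)`, `(N f)(x) = ∫ ν(x, y) f(y) dy` for
almost every `x`. -/
structure IsCarlemanWithKernel {a b : EReal} (N : Op a b) (ν : ℝ → ℝ → ℂ) : Prop where
  measurable : AEStronglyMeasurable (Function.uncurry ν) ((leb a b).prod (leb a b))
  rows : ∀ᵐ x ∂(leb a b), intSq a b (fun y => ν x y) < ⊤
  given : ∀ f : L2 a b, ∀ᵐ x ∂(leb a b), values N f x = ∫ y, ν x y * f y ∂(leb a b)

theorem sigmaFinite_leb (a b : EReal) : SigmaFinite (leb a b) := by
  unfold leb
  infer_instance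

theorem adjoint_eq {a b : EReal} {N N' : Op a b} (h : IsAdjoint N N') :
    ContinuousLinearMap.adjoint N = N' := by
  symm
  rw [ContinuousLinearMap.eq_adjoint_iff]
  intro g f
  have h1 := h f g
  have h2 : inner ℂ (N f) g = inner ℂ f (N' g) := by
    rw [L2.inner_def, L2.inner_def]
    simp only [RCLike.inner_apply, mul_comm]
    simpa only [values, mul_comm] using h1
  rw [← inner_conj_symm, ← h2, inner_conj_symm]

/-- Let `N` be a normal Carleman operator on `L²(a, b)` with kernel `ν` (`N` commutes with its adjoint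
`N'`). Then `∫ |ν(x, y)| ^ 2 dx` is finite for almost every `y`; in fact it is equal to
`∫ |ν(y, x)| ^ 2 dx` for almost every `y`, and the adjoint of `N` is the Carleman operator with the
conjugate-transposed kernel. In particular there is no normal Carleman operator whose kernel fails to
be square-integrable in its first variable. -/
theorem result (a b : EReal) (N N' : Op a b) (hadj : IsAdjoint N N') (hN : Commuting N N')
    (ν : ℝ → ℝ → ℂ) (hν : IsCarlemanWithKernel N ν) :
    (∀ᵐ y ∂(leb a b), intSq a b (fun x => ν x y) < ⊤) ∧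
    (∀ᵐ y ∂(leb a b), intSq a b (fun x => ν x y) = intSq a b (fun x => ν y x)) ∧
    IsCarlemanWithKernel N' (fun y x => conj (ν x y)) := by
  have hsf := sigmaFinite_leb a b
  have h : Pool.Agent.Helper19K9.Carleman.IsCarleman (leb a b) N ν :=
    ⟨hν.measurable, hν.rows, hν.given⟩
  have hN' : IsStarNormal N := by
    refine ⟨?_⟩
    rw [ContinuousLinearMap.star_eq_adjoint, adjoint_eq hadj]
    exact ContinuousLinearMap.ext fun f => (hN f).symm
  have h1 := Pool.Agent.Helper19K9.Carleman.column_eq h hN'
  have h2 := Pool.Agent.Helper19K9.Carleman.adjoint_isCarleman h hN'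
  rw [adjoint_eq hadj] at h2
  refine ⟨?_, h1, ⟨h2.measurable, h2.sq, h2.eq⟩⟩
  filter_upwards [h1, hν.rows] with y hy1 hy2
  unfold intSq at hy2 ⊢
  rw [hy1]
  exact hy2

end Pool.Agent.Results.MP_0ee9ff_an.NormalCarlemanKernels
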